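import Pool.Agent.W2helper83.BT.Defs3
import Pool.Agent.W2helper53.BT.Ratio

/-!
# Project BT, piece POW3: the line with four points of multiplicity three
-/

set_option autoImplicit false

namespace Pool.Agent.W2helper17.BT

open IsDedekindDomain NumberField Polynomial
open Pool.Agent.W2helper83.BT

section

variable {L : Type} [Field L] [NumberField L]

/-- outside a finite set a nonzero element is a unit -/
theorem fin_bad {x : L} (hx : x ≠ 0) :
    {v : HeightOneSpectrum (𝓞 L) | v.valuation L x ≠ 1}.Finite := by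
  refine ((HeightOneSpectrum.Support.finite (𝓞 L) x).union
    (HeightOneSpectrum.Support.finite (𝓞 L) x⁻¹)).subset ?_
  intro v hv
  rcases lt_or_gt_of_ne hv with h | h
  · right
    show 1 < v.valuation L x⁻¹
    rw [map_inv₀]
    exact (one_lt_inv₀ (zero_lt_iff.2 ((Valuation.ne_zero_iff _).2 hx))).2 h
  · left
    exact h

theorem ratio_sq (v : HeightOneSpectrum (𝓞 L)) {G : Fin 6 → L} {c g w : L}
    (hc : v.valuation L c = 1) (hG : ∀ i, v.valuation L (G i) ≤ 1)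
    (hd : ∀ i j, i ≠ j → v.valuation L (G i - G j) = 1)
    (hg : ∀ i, g ≠ G i) (hw : c * ∏ i, (g - G i) = w ^ 2) (i j : Fin 6) :
    ∃ h : L, h ≠ 0 ∧ v.valuation L ((g - G i) / (g - G j)) = v.valuation L h ^ 2 := by
  rcases le_or_gt (v.valuation L g) 1 with hg1 | hg1
  · have key : ∀ i, ∃ h : L, h ≠ 0 ∧ v.valuation L (g - G i) = v.valuation L h ^ 2 := by
      intro i
      have hle : ∀ j, v.valuation L (g - G j) ≤ 1 := fun j =>
        (Valuation.map_sub _ _ _).trans (max_le hg1 (hG j))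
      rcases (hle i).lt_or_eq with h1 | h1
      · refine ⟨w, ?_, ?_⟩
        · rintro rfl
          rw [zero_pow two_ne_zero, mul_eq_zero] at hw
          rcases hw with h | h
          · rw [h, map_zero] at hc
            exact zero_ne_one hc
          · exact Finset.prod_ne_zero_iff.2 (fun j _ => sub_ne_zero.2 (hg j)) h
        · rw [← map_pow, ← hw, map_mul, hc, one_mul, map_prod,
            ← Finset.mul_prod_erase _ _ (Finset.mem_univ i), Finset.prod_eq_one, mul_one]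
          intro j hj
          have hji : j ≠ i := Finset.ne_of_mem_erase hj
          refine le_antisymm (hle j) ?_
          by_contra hlt
          rw [not_le] at hlt
          have h2 : v.valuation L (G i - G j) < 1 := by
            have e : G i - G j = (g - G j) - (g - G i) := by ring
            rw [e]
            exact lt_of_le_of_lt (Valuation.map_sub _ _ _) (max_lt hlt h1)
          rw [hd i j hji.symm] at h2
          exact lt_irrefl _ h2
      · exact ⟨1, one_ne_zero, by rw [h1, map_one, one_pow]⟩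
    obtain ⟨a, ha, ha'⟩ := key i
    obtain ⟨b, hb, hb'⟩ := key j
    exact ⟨a / b, div_ne_zero ha hb, by rw [map_div₀, map_div₀, ha', hb', div_pow]⟩
  · refine ⟨1, one_ne_zero, ?_⟩
    have key : ∀ i, v.valuation L (g - G i) = v.valuation L g := fun i =>
      Valuation.map_sub_eq_of_lt_left (v.valuation L) (lt_of_le_of_lt (hG i) hg1)
    rw [map_div₀, key, key, div_self, map_one, one_pow]
    intro h
    rw [h] at hg1
    exact absurd hg1 (not_lt.2 zero_le_one)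

/-- a genus two curve `c ∏ (g - G_i) = w ^ 2` -/
theorem sextic (hP : POW 2 5) {c : L} (hc : c ≠ 0) {G : Fin 6 → L}
    (hG : Function.Injective G) :
    {g : L | ∃ w, c * ∏ i, (g - G i) = w ^ 2}.Finite := by
  classical
  let S : Set (HeightOneSpectrum (𝓞 L)) := ({v | v.valuation L c ≠ 1} ∪
    (⋃ i, {v | 1 < v.valuation L (G i)})) ∪ ⋃ i, ⋃ j, {v | i ≠ j ∧ v.valuation L (G i - G j) ≠ 1}
  have hS : S.Finite := by
    refine ((fin_bad hc).union (Set.finite_iUnion fun i =>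
      HeightOneSpectrum.Support.finite (𝓞 L) (G i))).union
      (Set.finite_iUnion fun i => Set.finite_iUnion fun j => ?_)
    by_cases hij : i = j
    · simp [hij]
    · refine (fin_bad (sub_ne_zero.2 (hG.ne hij))).subset ?_
      rintro v ⟨_, h⟩
      exact h
  have h1 := hP L S hS (fun i : Fin 5 => G i.castSucc) (hG.comp (Fin.castSucc_injective 5))
  refine (h1.union (Set.finite_range G)).subset ?_
  rintro g ⟨w, hw⟩
  by_cases hg : ∀ i, g ≠ G i
  · left
    refine ⟨fun i => hg _, fun i j v hv => ?_⟩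
    have hv1 : v.valuation L c = 1 := by
      by_contra h
      exact hv (Or.inl (Or.inl h))
    have hv2 : ∀ i, v.valuation L (G i) ≤ 1 := by
      intro i
      by_contra h
      exact hv (Or.inl (Or.inr (Set.mem_iUnion.2 ⟨i, not_le.1 h⟩)))
    have hv3 : ∀ i j, i ≠ j → v.valuation L (G i - G j) = 1 := by
      intro i j hij
      by_contra h
      exact hv (Or.inr (Set.mem_iUnion.2 ⟨i, Set.mem_iUnion.2 ⟨j, hij, h⟩⟩))
    exact ratio_sq v hv1 hv2 hv3 hg hw _ _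
  · right
    push Not at hg
    obtain ⟨i, hi⟩ := hg
    exact ⟨i, hi.symm⟩

end

/-- the discriminant of `(ρ - r 0) (ρ - r 1) = G (ρ - r 2) (ρ - r 3)` -/
def disc {K : Type} [Field K] (r0 r1 r2 r3 G : K) : K :=
  (G * (r2 + r3) - (r0 + r1)) ^ 2 - 4 * (1 - G) * (r0 * r1 - G * (r2 * r3))

/-- the six zeros -/
theorem zeros {M : Type} [Field M] [CharZero M] {r0 r1 r2 r3 e δ s α β : M}
    (h01 : r0 ≠ r1) (h02 : r0 ≠ r2) (h03 : r0 ≠ r3) (h12 : r1 ≠ r2) (h13 : r1 ≠ r3)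
    (h23 : r2 ≠ r3)
    (hδ : δ ^ 2 = (r0 - r2) * (r0 - r3) * ((r1 - r2) * (r1 - r3))) (hs : s ^ 2 = -3)
    (hα : 2 * (r2 - r3) ^ 2 * e * α ^ 3 =
      2 * (r0 + r1) * (r2 + r3) - 4 * (r0 * r1 + r2 * r3) + 4 * δ)
    (hβ : 2 * (r2 - r3) ^ 2 * e * β ^ 3 =
      2 * (r0 + r1) * (r2 + r3) - 4 * (r0 * r1 + r2 * r3) - 4 * δ) :
    ∃ G : Fin 6 → M, Function.Injective G ∧
      ∀ g, disc r0 r1 r2 r3 (e * g ^ 3) = ((r2 - r3) ^ 2 * e ^ 2) * ∏ i, (g - G i) := by
  have h3 : (3 : M) ≠ 0 := by norm_num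
  obtain ⟨ω, hω⟩ : ∃ ω : M, ω ^ 2 + ω + 1 = 0 :=
    ⟨(-1 + s) / 2, by linear_combination (1 / 4) * hs⟩
  have hω3 : ω ^ 3 = 1 := by linear_combination (ω - 1) * hω
  have hω1 : ω ≠ 1 := by
    rintro rfl
    apply h3
    linear_combination hω
  have hω0 : ω ≠ 0 := by
    rintro rfl
    exact one_ne_zero (α := M) (by linear_combination hω)
  have hprim : IsPrimitiveRoot ω 3 := by
    refine IsPrimitiveRoot.mk_of_lt ω (by norm_num) hω3 ?_
    intro l hl0 hl3
    interval_cases l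
    · rw [pow_one]; exact hω1
    · intro h
      apply hω1
      have : ω ^ 3 = ω * ω ^ 2 := by ring
      rw [h, hω3, mul_one] at this
      exact this.symm
  have h23' : r2 - r3 ≠ 0 := sub_ne_zero.2 h23
  have hδ0 : δ ≠ 0 := by
    rintro rfl
    rw [zero_pow two_ne_zero] at hδ
    have := mul_ne_zero (mul_ne_zero (sub_ne_zero.2 h02) (sub_ne_zero.2 h03))
      (mul_ne_zero (sub_ne_zero.2 h12) (sub_ne_zero.2 h13))
    exact this hδ.symm
  have h8 : (8 : M) ≠ 0 := by norm_num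
  have hαβ : α ^ 3 ≠ β ^ 3 := by
    intro h
    rw [h, hβ] at hα
    have : 8 * δ = 0 := by linear_combination -hα
    exact (mul_ne_zero h8 hδ0) this
  have hprod : (2 * (r2 - r3) ^ 2 * e * α ^ 3) * (2 * (r2 - r3) ^ 2 * e * β ^ 3) =
      4 * ((r2 - r3) ^ 2 * (r0 - r1) ^ 2) := by
    rw [hα, hβ]
    linear_combination (-16) * hδ
  have hne : (4 : M) * ((r2 - r3) ^ 2 * (r0 - r1) ^ 2) ≠ 0 :=
    mul_ne_zero (by norm_num) (mul_ne_zero (pow_ne_zero _ h23')
      (pow_ne_zero _ (sub_ne_zero.2 h01)))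
  have hα0 : α ≠ 0 := by
    rintro rfl
    apply hne
    rw [← hprod]
    ring
  have hβ0 : β ≠ 0 := by
    rintro rfl
    apply hne
    rw [← hprod]
    ring
  refine ⟨fun i => if (i : ℕ) < 3 then α * ω ^ (i : ℕ) else β * ω ^ ((i : ℕ) - 3), ?_, ?_⟩
  · intro i j hij
    simp only at hij
    have hc : ∀ (x : M) (k : ℕ), (x * ω ^ k) ^ 3 = x ^ 3 := by
      intro x k
      rw [mul_pow, ← pow_mul, mul_comm k 3, pow_mul, hω3, one_pow, mul_one]
    have hi := i.2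
    have hj := j.2
    split_ifs at hij with h1 h2 h2
    · have := hprim.pow_inj h1 h2 (mul_left_cancel₀ hα0 hij)
      exact Fin.ext this
    · exfalso
      apply hαβ
      have := congrArg (fun x => x ^ 3) hij
      simpa only [hc] using this
    · exfalso
      apply hαβ
      have := congrArg (fun x => x ^ 3) hij
      simp only [hc] at this
      exact this.symm
    · have := hprim.pow_inj (by omega) (by omega) (mul_left_cancel₀ hβ0 hij)
      exact Fin.ext (by omega)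
  · intro g
    have e1 : ∏ i : Fin 6, (g - (if (i : ℕ) < 3 then α * ω ^ (i : ℕ) else β * ω ^ ((i : ℕ) - 3))) =
        (g ^ 3 - α ^ 3) * (g ^ 3 - β ^ 3) := by
      have e2 : ∀ x : M, (g - x) * (g - x * ω) * (g - x * ω ^ 2) = g ^ 3 - x ^ 3 := by
        intro x
        linear_combination (-(g ^ 2 * x) + g * x ^ 2 * ω) * hω - x ^ 3 * hω3
      rw [← e2 α, ← e2 β]
      rw [Fin.prod_univ_six]
      norm_num
      ring
    rw [e1]
    have h4 : (4 : M) * (r2 - r3) ^ 2 ≠ 0 := mul_ne_zero (by norm_num) (pow_ne_zero _ h23')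
    apply mul_left_cancel₀ h4
    unfold disc
    linear_combination (2 * (r2 - r3) ^ 2 * e * g ^ 3) * hα +
      (2 * (r2 - r3) ^ 2 * e * g ^ 3) * hβ - hprod

/-- finitely many `g` -/
theorem fin_g (hR : ROOTS) (hP : POW 2 5) {K : Type} [Field K] [NumberField K]
    {r : Fin 4 → K} (hr : Function.Injective r) {ε : K} (hε : ε ≠ 0) :
    {g : K | ∃ w : K, disc (r 0) (r 1) (r 2) (r 3) (ε * g ^ 3) = w ^ 2}.Finite := by
  classical
  obtain ⟨M1, _, _, _, hM1⟩ := hR K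
    {(r 0 - r 2) * (r 0 - r 3) * ((r 1 - r 2) * (r 1 - r 3)), -3} 2 (by norm_num)
  obtain ⟨δ, hδ⟩ := hM1 _ (Finset.mem_insert_self _ _)
  obtain ⟨s, hs⟩ := hM1 (-3) (by simp)
  let ψ := algebraMap K M1
  let b : M1 := 2 * (ψ (r 0) + ψ (r 1)) * (ψ (r 2) + ψ (r 3)) -
    4 * (ψ (r 0) * ψ (r 1) + ψ (r 2) * ψ (r 3))
  obtain ⟨M, _, _, _, hM⟩ := hR M1 {(b + 4 * δ) / (2 * (ψ (r 2) - ψ (r 3)) ^ 2 * ψ ε),
    (b - 4 * δ) / (2 * (ψ (r 2) - ψ (r 3)) ^ 2 * ψ ε)} 3 (by norm_num)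
  obtain ⟨α, hα⟩ := hM _ (Finset.mem_insert_self _ _)
  obtain ⟨β, hβ⟩ := hM _ (Finset.mem_insert_of_mem (Finset.mem_singleton_self _))
  let χ := algebraMap M1 M
  let φ : K →+* M := χ.comp ψ
  have hφ : Function.Injective φ := φ.injective
  have hrne : ∀ i j, i ≠ j → φ (r i) ≠ φ (r j) := fun i j hij h => hij (hr (hφ h))
  have hq : (2 * (ψ (r 2) - ψ (r 3)) ^ 2 * ψ ε) ≠ 0 := by
    refine mul_ne_zero (mul_ne_zero two_ne_zero (pow_ne_zero _ ?_)) ?_
    · exact sub_ne_zero.2 fun h => by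
        have := hr (ψ.injective h)
        exact absurd this (by decide)
    · exact (map_ne_zero ψ).2 hε
  have hδ' : (χ δ) ^ 2 = (φ (r 0) - φ (r 2)) * (φ (r 0) - φ (r 3)) *
      ((φ (r 1) - φ (r 2)) * (φ (r 1) - φ (r 3))) := by
    rw [← map_pow, hδ]
    simp [φ, ψ, χ]
  have hs' : (χ s) ^ 2 = -3 := by
    rw [← map_pow, hs, map_neg, map_neg]
    simp only [map_ofNat]
  have hα' : 2 * (φ (r 2) - φ (r 3)) ^ 2 * φ ε * α ^ 3 =
      2 * (φ (r 0) + φ (r 1)) * (φ (r 2) + φ (r 3)) -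
        4 * (φ (r 0) * φ (r 1) + φ (r 2) * φ (r 3)) + 4 * χ δ := by
    have e1 : (2 * (ψ (r 2) - ψ (r 3)) ^ 2 * ψ ε) *
        ((b + 4 * δ) / (2 * (ψ (r 2) - ψ (r 3)) ^ 2 * ψ ε)) = b + 4 * δ :=
      mul_div_cancel₀ _ hq
    have e2 := congrArg χ e1
    rw [map_mul] at e2
    rw [← show α ^ 3 = χ ((b + 4 * δ) / (2 * (ψ (r 2) - ψ (r 3)) ^ 2 * ψ ε)) from hα] at e2
    simpa [b, φ, map_ofNat] using e2
  have hβ' : 2 * (φ (r 2) - φ (r 3)) ^ 2 * φ ε * β ^ 3 =
      2 * (φ (r 0) + φ (r 1)) * (φ (r 2) + φ (r 3)) -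
        4 * (φ (r 0) * φ (r 1) + φ (r 2) * φ (r 3)) - 4 * χ δ := by
    have e1 : (2 * (ψ (r 2) - ψ (r 3)) ^ 2 * ψ ε) *
        ((b - 4 * δ) / (2 * (ψ (r 2) - ψ (r 3)) ^ 2 * ψ ε)) = b - 4 * δ :=
      mul_div_cancel₀ _ hq
    have e2 := congrArg χ e1
    rw [map_mul] at e2
    rw [← show β ^ 3 = χ ((b - 4 * δ) / (2 * (ψ (r 2) - ψ (r 3)) ^ 2 * ψ ε)) from hβ] at e2
    simpa [b, φ, map_ofNat] using e2
  obtain ⟨G, hG, hGg⟩ := zeros (hrne 0 1 (by decide)) (hrne 0 2 (by decide))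
    (hrne 0 3 (by decide)) (hrne 1 2 (by decide)) (hrne 1 3 (by decide)) (hrne 2 3 (by decide))
    hδ' hs' hα' hβ'
  have hc : (φ (r 2) - φ (r 3)) ^ 2 * (φ ε) ^ 2 ≠ 0 :=
    mul_ne_zero (pow_ne_zero _ (sub_ne_zero.2 (hrne 2 3 (by decide))))
      (pow_ne_zero _ ((map_ne_zero φ).2 hε))
  have hfin := sextic hP hc hG
  refine (hfin.preimage (f := φ) hφ.injOn).subset ?_
  rintro g ⟨w, hw⟩
  refine ⟨φ w, ?_⟩
  rw [← hGg, ← map_pow φ w 2, ← hw]
  simp only [disc, map_sub, map_mul, map_add, map_pow, map_one, map_ofNat]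

/-- **POW3** -/
theorem pow3 : POW3 := by
  classical
  intro _ hS3 hR hP K _ _ S hS r hr
  obtain ⟨T, hT0, hT⟩ := hS3 K S hS
  have hne : ∀ i j, i ≠ j → r i - r j ≠ 0 := fun i j hij => sub_ne_zero.2 (hr.ne hij)
  have hρfin : ∀ G : K, {ρ : K | (ρ - r 0) * (ρ - r 1) = G * ((ρ - r 2) * (ρ - r 3))}.Finite := by
    intro G
    let P : K[X] := (X - C (r 0)) * (X - C (r 1)) - C G * ((X - C (r 2)) * (X - C (r 3)))
    have hP0 : P ≠ 0 := by
      intro h
      have h1 : P.eval (r 2) = 0 := by rw [h, eval_zero]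
      simp only [P, eval_sub, eval_mul, eval_X, eval_C, sub_self, zero_mul, mul_zero,
        sub_zero] at h1
      exact mul_ne_zero (hne 2 0 (by decide)) (hne 2 1 (by decide)) h1
    refine (P.roots.toFinset.finite_toSet).subset ?_
    intro ρ hρ
    rw [Finset.mem_coe, Multiset.mem_toFinset, mem_roots hP0, IsRoot.def]
    simp only [P, eval_sub, eval_mul, eval_X, eval_C]
    exact sub_eq_zero.2 hρ
  have hall : (⋃ ε ∈ T, ⋃ g ∈ {g : K | ∃ w : K,
      disc (r 0) (r 1) (r 2) (r 3) (ε * g ^ 3) = w ^ 2},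
      {ρ : K | (ρ - r 0) * (ρ - r 1) = (ε * g ^ 3) * ((ρ - r 2) * (ρ - r 3))}).Finite := by
    refine Set.Finite.biUnion T.finite_toSet fun ε hε => ?_
    exact Set.Finite.biUnion (fin_g hR hP hr (hT0 ε hε)) fun g _ => hρfin _
  refine hall.subset ?_
  rintro ρ ⟨hρ, h⟩
  have hρ' : ∀ i, ρ - r i ≠ 0 := fun i => sub_ne_zero.2 (hρ i)
  have hq : (ρ - r 0) / (ρ - r 2) * ((ρ - r 1) / (ρ - r 3)) ≠ 0 :=
    mul_ne_zero (div_ne_zero (hρ' 0) (hρ' 2)) (div_ne_zero (hρ' 1) (hρ' 3))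
  obtain ⟨ε, hε, g, hg, he⟩ := hT (Units.mk0 _ hq) (by
    intro v hv
    obtain ⟨g1, hg1, h1⟩ := h 0 2 v hv
    obtain ⟨g2, hg2, h2⟩ := h 1 3 v hv
    exact Pool.Agent.W2helper53.BT.dvd_order hq (mul_ne_zero hg1 hg2) v
      (by rw [map_mul, h1, h2, map_mul, mul_pow]))
  rw [Units.val_mk0] at he
  have h2' := hρ' 2
  have h3' := hρ' 3
  have hrel : (ρ - r 0) * (ρ - r 1) = (ε * g ^ 3) * ((ρ - r 2) * (ρ - r 3)) := by
    rw [← he]
    field_simp
  simp only [Set.mem_iUnion]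
  refine ⟨ε, hε, g, ⟨2 * (1 - ε * g ^ 3) * ρ - ((r 0 + r 1) - ε * g ^ 3 * (r 2 + r 3)), ?_⟩, hrel⟩
  unfold disc
  linear_combination (-4) * (1 - ε * g ^ 3) * hrel

end Pool.Agent.W2helper17.BT
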